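import Pool.Agent.helper65.GD.SpecF

set_option autoImplicit false

namespace Pool.Agent.GD

open Finset Metric Filter Topology

theorem XFB_EE {g e : ℕ → ℂ} {D : ℝ} (hD : Dat g e D) (i : ℕ) : ‖e i‖ ≤ EE i := by
  unfold EE
  split_ifs with h0 h1 h2
  · rw [h0, hD.e0]
    simp
  · rw [h1]
    linarith [hD.e1, hD.D0]
  · rw [h2]
    exact hD.e2
  · exact hD.e3 i

/-- the first part -/
theorem XFB_first (p n j : ℕ) (g e h : ℕ → ℂ) (D : ℝ) (hD : Dat g e D) (hj : 1 ≤ j)
    (hjp : j ≤ p + 1) (hn : p + 1 < n)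
    (hh : ∀ k, k ≤ p → h k = if k + 1 < j then 0 else j * e (k + 1 - j)) :
    ‖∑ k ∈ range (p + 1), g (n - 1 - k) * h k‖ ≤ j * (TT (p + 1 - j) (n - p - 1) +
      (if j + 1 ≤ p then ((n - p - 1 : ℕ) : ℝ) * ((n - p - 1 : ℕ) + 1) / 2 * D *
        ((((p + 1 - j : ℕ) : ℝ) ^ 2 + 4 * ((p + 1 - j : ℕ) : ℝ) - 8) / 3) else 0)) := by
  set r := p + 1 - j with hr
  set A := n - p - 1 with hA
  have hA1 : 1 ≤ A := by omega
  have e1 : ∑ k ∈ range (p + 1), g (n - 1 - k) * h k =
      (j : ℂ) * ∑ i ∈ range (r + 1), g (A + r - i) * e i := by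
    have hsplit : p + 1 = (j - 1) + (r + 1) := by omega
    rw [hsplit, Finset.sum_range_add, Finset.sum_eq_zero, zero_add, Finset.mul_sum]
    · refine Finset.sum_congr rfl fun i hi => ?_
      have hi' := Finset.mem_range.1 hi
      rw [hh (j - 1 + i) (by omega), if_neg (by omega), show j - 1 + i + 1 - j = i by omega,
        show n - 1 - (j - 1 + i) = A + r - i by omega]
      ring
    · intro k hk
      have hk' := Finset.mem_range.1 hk
      rw [hh k (by omega), if_pos (by omega), mul_zero]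
  rw [e1, norm_mul, Complex.norm_natCast]
  refine mul_le_mul_of_nonneg_left ?_ (Nat.cast_nonneg j)
  rcases Nat.lt_or_ge r 2 with h2 | h2
  · rw [if_neg (by omega), add_zero]
    have hr01 : r = 0 ∨ r = 1 := by omega
    rcases hr01 with h0 | h1
    · rw [h0]
      simp only [TT, if_true, zero_add, Finset.range_one, Finset.sum_singleton, hD.e0, mul_one]
      simpa using hD.gb A
    · rw [h1]
      have := hD.p1 A hA1
      simpa [TT] using this
  · rw [if_pos (by omega)]
    have := hD.p2 A r hA1 h2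
    have hT : TT r A = 4 * A + 2 := by
      unfold TT
      rw [if_neg (by omega), if_neg (by omega)]
    rw [hT]
    exact this

/-- the bound of one term of the second part -/
theorem XFB_term (p n j m : ℕ) (e h : ℕ → ℂ) (g : ℕ → ℂ) (D : ℝ) (hD : Dat g e D)
    (hj : 1 ≤ j) (hpm : p < m) (hmn : m < n)
    (hh : ∀ k, k ≤ p → h k = if k + 1 < j then 0 else j * e (k + 1 - j))
    (hm : ∀ m, p < m → ‖h m‖ ≤ ∑ k ∈ Icc 1 p, AA p m k * ‖h k‖) :
    ‖g (n - 1 - m) * h m‖ ≤ j * (((n : ℝ) - m) *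
      (∑ k ∈ Icc 1 p, AA p m k * (if k + 1 < j then 0 else EE (k + 1 - j)) -
        (if j ≤ p then D * AA p m j else 0))) := by
  have hg : ‖g (n - 1 - m)‖ ≤ (n : ℝ) - m := by
    have h1 := hD.gb (n - 1 - m)
    have h2 : ((n - 1 - m : ℕ) : ℝ) + 1 = (n : ℝ) - m := by
      have h3 : (n - 1 - m) + 1 + m = n := by omega
      have h4 : (((n - 1 - m) + 1 + m : ℕ) : ℝ) = n := by rw [h3]
      push_cast at h4
      linarith
    linarith
  have hAA : ∀ k ∈ Icc 1 p, 0 ≤ AA p m k := by
    intro k hk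
    obtain ⟨h1, h2⟩ := Finset.mem_Icc.1 hk
    exact (nue_holds p m k h1 h2 hpm).2.1
  have hH : ‖h m‖ ≤ j * (∑ k ∈ Icc 1 p, AA p m k * (if k + 1 < j then 0 else EE (k + 1 - j)) -
        (if j ≤ p then D * AA p m j else 0)) := by
    refine (hm m hpm).trans ?_
    have e2 : (if j ≤ p then D * AA p m j else 0) =
        ∑ k ∈ Icc 1 p, AA p m k * (if k = j then D else 0) := by
      split_ifs with hjp
      · rw [Finset.sum_eq_single j]
        · rw [if_pos rfl]
          ring
        · intro b _ hb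
          rw [if_neg hb, mul_zero]
        · intro hb
          exact absurd (Finset.mem_Icc.2 ⟨hj, hjp⟩) hb
      · symm
        refine Finset.sum_eq_zero fun k hk => ?_
        have := Finset.mem_Icc.1 hk
        rw [if_neg (by omega), mul_zero]
    rw [e2, ← Finset.sum_sub_distrib, Finset.mul_sum]
    refine Finset.sum_le_sum fun k hk => ?_
    obtain ⟨hk1, hk2⟩ := Finset.mem_Icc.1 hk
    have hb : ‖h k‖ ≤ j * ((if k + 1 < j then 0 else EE (k + 1 - j)) - (if k = j then D else 0)) := by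
      rw [hh k hk2]
      by_cases h1 : k + 1 < j
      · rw [if_pos h1, if_pos h1, if_neg (by omega)]
        simp
      · rw [if_neg h1, if_neg h1, norm_mul, Complex.norm_natCast]
        refine mul_le_mul_of_nonneg_left ?_ (Nat.cast_nonneg j)
        by_cases h2 : k = j
        · rw [if_pos h2, h2, show j + 1 - j = 1 by omega]
          have := hD.e1
          have hE : EE 1 = 4 := by simp [EE]
          rw [hE]
          exact this
        · rw [if_neg h2, sub_zero]
          exact XFB_EE hD _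
    calc AA p m k * ‖h k‖ ≤ AA p m k *
          (j * ((if k + 1 < j then 0 else EE (k + 1 - j)) - (if k = j then D else 0))) :=
          mul_le_mul_of_nonneg_left hb (hAA k hk)
      _ = _ := by ring
  rw [norm_mul]
  calc ‖g (n - 1 - m)‖ * ‖h m‖ ≤ ((n : ℝ) - m) * (j *
        (∑ k ∈ Icc 1 p, AA p m k * (if k + 1 < j then 0 else EE (k + 1 - j)) -
        (if j ≤ p then D * AA p m j else 0))) :=
        mul_le_mul hg hH (norm_nonneg _) ((norm_nonneg _).trans hg)
    _ = _ := by ring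

theorem XFB (hXNI : XNI_stmt) (hXN3 : XN3_stmt) : XFB_stmt := by
  intro p n j g e h D hD hj hjp hn hh hm
  have hI : range n = range (p + 1) ∪ Ioo p n := by
    ext x
    simp only [Finset.mem_range, Finset.mem_union, Finset.mem_Ioo]
    omega
  have hdis : Disjoint (range (p + 1)) (Ioo p n) := by
    rw [Finset.disjoint_left]
    intro x hx hx'
    have h1 := Finset.mem_range.1 hx
    have h2 := Finset.mem_Ioo.1 hx'
    omega
  have hfirst := XFB_first p n j g e h D hD hj hjp hn hh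
  have hsecond : ‖∑ k ∈ Ioo p n, g (n - 1 - k) * h k‖ ≤ j * ∑ m ∈ Ioo p n, ((n : ℝ) - m) *
      (∑ k ∈ Icc 1 p, AA p m k * (if k + 1 < j then 0 else EE (k + 1 - j)) -
        (if j ≤ p then D * AA p m j else 0)) := by
    rw [Finset.mul_sum]
    refine norm_sum_le_of_le _ fun m hmm => ?_
    obtain ⟨h1, h2⟩ := Finset.mem_Ioo.1 hmm
    exact XFB_term p n j m e h g D hD hj h1 h2 hh hm
  have hsum : ∑ m ∈ Ioo p n, ((n : ℝ) - m) *
      (∑ k ∈ Icc 1 p, AA p m k * (if k + 1 < j then 0 else EE (k + 1 - j)) -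
        (if j ≤ p then D * AA p m j else 0)) =
      ∑ m ∈ Ioo p n, ((n : ℝ) - m) *
        ∑ k ∈ Icc 1 p, AA p m k * (if k + 1 < j then 0 else EE (k + 1 - j)) -
      (if j ≤ p then D * ∑ m ∈ Ioo p n, ((n : ℝ) - m) * AA p m j else 0) := by
    split_ifs with hjp'
    · rw [Finset.mul_sum, ← Finset.sum_sub_distrib]
      refine Finset.sum_congr rfl fun m _ => ?_
      ring
    · rw [sub_zero]
      refine Finset.sum_congr rfl fun m _ => ?_
      rw [sub_zero]
  have hnn : 0 ≤ ∑ m ∈ Ioo p n, ((n : ℝ) - m) * AA p m j ∨ ¬ j ≤ p := by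
    by_cases hjp' : j ≤ p
    · left
      refine Finset.sum_nonneg fun m hmm => ?_
      obtain ⟨h1, h2⟩ := Finset.mem_Ioo.1 hmm
      refine mul_nonneg ?_ (nue_holds p m j hj hjp' h1).2.1
      have : (m : ℝ) ≤ n := by exact_mod_cast h2.le
      linarith
    · right
      exact hjp'
  have hcmp : (if j + 1 ≤ p then ((n - p - 1 : ℕ) : ℝ) * ((n - p - 1 : ℕ) + 1) / 2 * D *
        ((((p + 1 - j : ℕ) : ℝ) ^ 2 + 4 * ((p + 1 - j : ℕ) : ℝ) - 8) / 3) else 0) ≤
      (if j ≤ p then D * ∑ m ∈ Ioo p n, ((n : ℝ) - m) * AA p m j else 0) := by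
    by_cases h1 : j + 1 ≤ p
    · rw [if_pos h1, if_pos (by omega)]
      have := mul_le_mul_of_nonneg_left (hXN3 p n j hj h1 hn) hD.D0
      calc _ = D * (((n - p - 1 : ℕ) : ℝ) * ((n - p - 1 : ℕ) + 1) / 2 *
            ((((p + 1 - j : ℕ) : ℝ) ^ 2 + 4 * ((p + 1 - j : ℕ) : ℝ) - 8) / 3)) := by ring
        _ ≤ _ := this
    · rw [if_neg h1]
      split_ifs with h2
      · rcases hnn with h3 | h3
        · exact mul_nonneg hD.D0 h3
        · exact absurd h2 h3
      · exact le_refl _
  unfold gs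
  rw [hI, Finset.sum_union hdis]
  refine (norm_add_le _ _).trans ?_
  refine (add_le_add hfirst hsecond).trans ?_
  rw [hsum, ← mul_add]
  refine mul_le_mul_of_nonneg_left ?_ (Nat.cast_nonneg j)
  rw [← hXNI p n j hj hjp hn]
  linarith

end Pool.Agent.GD
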